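import Mathlib
import Pool.Agent.H54.Zam2

namespace Pool.Agent.Results.MP_63af43_lc.Subpoly

open Pool.Agent.H54.Zam

theorem result (n : ℕ) (hn : 28 ≤ n) :
    ∃ (R Q : Type) (_ : Fintype R) (_ : Fintype Q) (_ : Nonempty R) (_ : Nonempty Q) (m : ℕ)
      (A : Fin m → Set ((Fin n → Bool) × R)) (B : Fin m → Set (Fin n × Q)),
      IsZAM (fun (x : Fin n → Bool) (y : Fin n) => x y) A B ∧
      (Nat.clog 2 m : ℝ) ≤ Real.exp (26 * √(Real.log n * Real.log (Real.log n))) :=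
  main n hn

end Pool.Agent.Results.MP_63af43_lc.Subpoly
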